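import Pool.Agent.H458.AR.Fld
import Pool.Graph.R_pool_sql_team_seeded_63374d34.N400.PQ.SD

/-!
# Project AR (helper458), part SRE (helper919): a basis of the lattice `{x | x² / α is integral}`
-/

set_option autoImplicit false
set_option linter.all false

open IsDedekindDomain NumberField nonZeroDivisors
open scoped Classical

namespace Pool.Agent.H919.AR458

open Pool.Agent.H458.AR

/-- The lattice as an `O`-submodule. -/
def latt {L O : Type} [Field L] [CharZero L] [CommRing O] [Algebra O L] [IsIntegralClosure O ℤ L]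
    (α : L) : Submodule O L where
  carrier := {x | IsIntegral ℤ (x ^ 2 / α)}
  zero_mem' := by
    show IsIntegral ℤ ((0 : L) ^ 2 / α)
    rw [zero_pow two_ne_zero, zero_div]
    exact isIntegral_zero
  add_mem' := by
    intro x y hx hy
    have hx' : IsIntegral ℤ (x ^ 2 / α) := hx
    have hy' : IsIntegral ℤ (y ^ 2 / α) := hy
    have hxy : IsIntegral ℤ (x * y / α) := by
      have h2 : IsIntegral ℤ ((x * y / α) ^ 2) := by
        have : (x * y / α) ^ 2 = (x ^ 2 / α) * (y ^ 2 / α) := by ring
        rw [this]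
        exact hx'.mul hy'
      exact IsIntegral.of_pow two_pos h2
    show IsIntegral ℤ ((x + y) ^ 2 / α)
    have : (x + y) ^ 2 / α = x ^ 2 / α + (x * y / α + x * y / α) + y ^ 2 / α := by ring
    rw [this]
    exact (hx'.add (hxy.add hxy)).add hy'
  smul_mem' := by
    intro c x hx
    have hx' : IsIntegral ℤ (x ^ 2 / α) := hx
    have hc : IsIntegral ℤ (algebraMap O L c) := (IsIntegralClosure.isIntegral_iff (A := O)).2 ⟨c, rfl⟩
    show IsIntegral ℤ ((c • x) ^ 2 / α)
    have : (c • x) ^ 2 / α = (algebraMap O L c) ^ 2 * (x ^ 2 / α) := by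
      rw [Algebra.smul_def]; ring
    rw [this]
    exact (hc.pow 2).mul hx'

theorem sre : S_SRE := by
  intro L O _ _ _ _ _ _ _ hr α hα
  obtain ⟨n, d, hnd⟩ := IsLocalization.exists_mk'_eq O⁰ α
  have hd : (d : O) ≠ 0 := nonZeroDivisors.ne_zero d.2
  have hn : n ≠ 0 := by
    rintro rfl
    apply hα
    rw [← hnd, IsLocalization.mk'_zero]
  have hinj : Function.Injective (algebraMap O L) := IsFractionRing.injective O L
  have hd' : algebraMap O L (d : O) ≠ 0 := by
    intro h
    exact hd (hinj (by rw [h, map_zero]))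
  have hn' : algebraMap O L n ≠ 0 := by
    intro h
    exact hn (hinj (by rw [h, map_zero]))
  have hαe : α = algebraMap O L n / algebraMap O L (d : O) := by
    rw [← hnd, IsFractionRing.mk'_eq_div]
  have hint : ∀ c : O, IsIntegral ℤ (algebraMap O L c) := fun c =>
    (IsIntegralClosure.isIntegral_iff (A := O)).2 ⟨c, rfl⟩
  have hfrac : IsFractional O⁰ (latt (O := O) α) := by
    refine ⟨(d : O), d.2, ?_⟩
    intro x hx
    have hx' : IsIntegral ℤ (x ^ 2 / α) := hx
    have h1 : IsIntegral ℤ (((d : O) • x) ^ 2) := by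
      have : ((d : O) • x) ^ 2 = algebraMap O L (d : O) * (algebraMap O L n * (x ^ 2 / α)) := by
        rw [Algebra.smul_def, hαe]
        field_simp
      rw [this]
      exact (hint _).mul ((hint _).mul hx')
    have h2 : IsIntegral ℤ ((d : O) • x) := IsIntegral.of_pow two_pos h1
    obtain ⟨z, hz⟩ := (IsIntegralClosure.isIntegral_iff (A := O)).1 h2
    exact ⟨z, hz⟩
  let I : FractionalIdeal O⁰ L := ⟨latt (O := O) α, hfrac⟩
  have hmemI : ∀ x : L, x ∈ I ↔ IsIntegral ℤ (x ^ 2 / α) := fun x => Iff.rfl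
  have hI0 : I ≠ 0 := by
    intro h
    have h1 : algebraMap O L n ∈ I := by
      rw [hmemI]
      have : (algebraMap O L n) ^ 2 / α = algebraMap O L n * algebraMap O L (d : O) := by
        rw [hαe]
        field_simp
      rw [this]
      exact (hint _).mul (hint _)
    rw [h, FractionalIdeal.mem_zero_iff] at h1
    exact hn' h1
  obtain ⟨e, hli, he, hsp⟩ := Pool.Agent.N400.PQSD.basis_I L O hr I hI0
  refine ⟨e, hli, fun x => ⟨fun hx => hsp x ((hmemI x).2 hx), ?_⟩⟩
  rintro ⟨c, rfl⟩
  rw [← hmemI]
  have h1 : ∀ i, ((c i : ℤ) : L) * e i ∈ I := by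
    intro i
    have : ((c i : ℤ) : L) * e i = (c i : O) • e i := by
      rw [Algebra.smul_def, map_intCast]
    rw [this]
    exact Submodule.smul_mem (I : Submodule O L) _ (he i)
  exact Submodule.sum_mem (I : Submodule O L) fun i _ => h1 i

end Pool.Agent.H919.AR458
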